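import Pool.Agent.Run7.h409.Extremal

/-!
# Section rings with a torus action of complexity at most one

`S` is a normal domain over an algebraically closed field `k`, graded by the character group `Λ` of a
torus; `deg : Λ →+ ℤ` gives the grading as a section ring and `X = Proj S`.
-/

namespace Pool.Agent.Results.MP_954e53_ag.ComplexityOne

open DirectSum

set_option linter.unusedSectionVars false

variable {k S Λ : Type} [Field k] [CommRing S] [Algebra k S] [AddCommGroup Λ] [DecidableEq Λ]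

/-- `x` lies in the degree `n` part of `S`: every nonzero component has weight `u` of degree `n`. -/
def InDeg (𝒜 : Λ → Submodule k S) [GradedAlgebra 𝒜] (deg : Λ →+ ℤ) (n : ℤ) (x : S) : Prop :=
  ∀ u, ((decompose 𝒜 x u : 𝒜 u) : S) ≠ 0 → deg u = n

/-- With the grading given by `deg`, the algebra `S` is finitely generated, `S = ⨁ S_n` over `n ≥ 0`,
`S_0 = k`, `S ≠ k`, and `O(1)` is invertible on `Proj S`: at every torus-stable point `P` of `Proj S`
some elements of two consecutive degrees do not vanish. -/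
structure IsSectionRing (𝒜 : Λ → Submodule k S) [GradedAlgebra 𝒜] (deg : Λ →+ ℤ) : Prop where
  fg : Algebra.FiniteType k S
  nonneg : ∀ u, ∀ x ∈ 𝒜 u, x ≠ 0 → 0 ≤ deg u
  zero : ∀ u, deg u = 0 → ∀ x ∈ 𝒜 u, ∃ c : k, x = algebraMap k S c
  pos : ∃ u, 0 < deg u ∧ ∃ x ∈ 𝒜 u, x ≠ 0
  invertible : ∀ P : Ideal S, P.IsPrime → P.IsHomogeneous 𝒜 → (∃ u, 0 < deg u ∧ ∃ x ∈ 𝒜 u, x ∉ P) →
    ∃ (n : ℤ) (a b : S), InDeg 𝒜 deg n a ∧ InDeg 𝒜 deg (n + 1) b ∧ a ∉ P ∧ b ∉ P

/-- The field generated over `k` by the quotients `a / b` of two elements `a`, `b` of the same weight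
`u`, where `u` runs over the weights satisfying `F`. -/
noncomputable def quotField [IsDomain S] (𝒜 : Λ → Submodule k S) (F : Λ → Prop) :
    IntermediateField k (FractionRing S) :=
  IntermediateField.adjoin k {x | ∃ u, F u ∧ ∃ a ∈ 𝒜 u, ∃ b ∈ 𝒜 u,
    x = algebraMap S (FractionRing S) a / algebraMap S (FractionRing S) b}

theorem inDeg_of_mem (𝒜 : Λ → Submodule k S) [GradedAlgebra 𝒜] (deg : Λ →+ ℤ) {u : Λ} {x : S}
    (hx : x ∈ 𝒜 u) : InDeg 𝒜 deg (deg u) x := by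
  intro v hv
  by_cases h : u = v
  · rw [h]
  · exact absurd (decompose_of_mem_ne 𝒜 hx h) hv

theorem partB {k S Λ : Type} [Field k] [IsAlgClosed k] [CommRing S] [IsDomain S]
    [IsIntegrallyClosed S] [Algebra k S] [AddCommGroup Λ] [inst : DecidableEq Λ] [LinearOrder Λ]
    [IsOrderedAddMonoid Λ]
    (𝒜 : Λ → Submodule k S) [@GradedAlgebra Λ k S inst _ _ _ _ 𝒜] (deg : Λ →+ ℤ)
    (h : IsSectionRing 𝒜 deg)
    (hG : Nonempty (quotField 𝒜 (fun _ => True) →ₐ[k] RatFunc k)) :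
    ∃ v, deg v = 1 ∧ ∃ z ∈ 𝒜 v, z ≠ 0 := by
  have e : inst = LinearOrder.toDecidableEq := Subsingleton.elim _ _
  subst e
  refine Run7.h409.Face.coreB 𝒜 h.fg deg h.nonneg h.zero h.pos ?_ ?_
  · intro P h1 h2 h3
    obtain ⟨n, a, b, ha, hb, h4, h5⟩ := h.invertible P h1 h2 h3
    exact ⟨n, a, b, ha, hb, h4, h5⟩
  · have e : quotField 𝒜 (fun _ => True) = IntermediateField.adjoin k {x : FractionRing S |
        ∃ u, ∃ a ∈ 𝒜 u, ∃ b ∈ 𝒜 u,
          x = algebraMap S (FractionRing S) a / algebraMap S (FractionRing S) b} := by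
      unfold quotField
      congr 1
      ext x
      simp only [true_and]
    rw [← e]
    exact hG

theorem partA {k S Λ Γ : Type} [Field k] [IsAlgClosed k] [CommRing S] [IsDomain S]
    [IsIntegrallyClosed S] [Algebra k S] [AddCommGroup Λ] [inst : DecidableEq Λ] [LinearOrder Λ]
    [IsOrderedAddMonoid Λ] [AddCommGroup Γ] [LinearOrder Γ] [IsOrderedAddMonoid Γ]
    (𝒜 : Λ → Submodule k S) [@GradedAlgebra Λ k S inst _ _ _ _ 𝒜] (deg : Λ →+ ℤ)
    (h : IsSectionRing 𝒜 deg)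
    (ℓ : Λ →+ Γ) (hℓ : ∀ u, ∀ x ∈ 𝒜 u, x ≠ 0 → 0 ≤ ℓ u)
    (hinj : ∀ u, ℓ u = 0 → deg u = 0 → u = 0)
    (hpt : ∃ u, ℓ u = 0 ∧ 0 < deg u ∧ ∃ x ∈ 𝒜 u, x ≠ 0)
    (hG : Nonempty (quotField 𝒜 (fun u => ℓ u = 0) →ₐ[k] RatFunc k)) :
    ∃ v, deg v = 1 ∧ ∃ z ∈ 𝒜 v, z ≠ 0 := by
  have e : inst = LinearOrder.toDecidableEq := Subsingleton.elim _ _
  subst e
  obtain ⟨j⟩ := hG
  refine Run7.h409.Face.core 𝒜 h.fg deg h.nonneg h.zero ?_ ℓ hℓ hinj hpt
    (Run7.h409.Genus0.G0_of_embedding j)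
  intro P h1 h2 h3
  obtain ⟨n, a, b, ha, hb, h4, h5⟩ := h.invertible P h1 h2 h3
  exact ⟨n, a, b, ha, hb, h4, h5⟩

/-- Let `S` be a normal domain over an algebraically closed field `k`.
(1) If `S` is graded by the character group `ℤ^r` of a torus and is a section ring for the grading
given by `deg`, and if the field of torus-invariant rational functions embeds in `k(t)` (torus action
of complexity at most one with rational quotient), then `S_1 ≠ 0`.
(2) If `S` is bigraded, the second grading making it a section ring and the first one having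
nonnegative weights (a one-parameter subgroup, normalised so that its extremal weight is zero), and if
the function field of the extremal fixed component (quotients of elements of weight `(0, n)`) embeds in
`k(t)`, so that this component is a point or a rational curve, then `S_1 ≠ 0`. -/
theorem result (k S : Type) [Field k] [IsAlgClosed k] [CommRing S] [IsDomain S]
    [IsIntegrallyClosed S] [Algebra k S] :
    (∀ (r : ℕ) (𝒜 : (Fin r → ℤ) → Submodule k S) [GradedAlgebra 𝒜] (deg : (Fin r → ℤ) →+ ℤ),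
      IsSectionRing 𝒜 deg →
      Nonempty (quotField 𝒜 (fun _ => True) →ₐ[k] RatFunc k) →
      ∃ z : S, z ≠ 0 ∧ InDeg 𝒜 deg 1 z) ∧
    (∀ (𝒜 : ℤ × ℤ → Submodule k S) [GradedAlgebra 𝒜],
      IsSectionRing 𝒜 (AddMonoidHom.snd ℤ ℤ) →
      (∀ u, ∀ x ∈ 𝒜 u, x ≠ 0 → 0 ≤ u.1) →
      (∃ n, 0 < n ∧ ∃ x ∈ 𝒜 (0, n), x ≠ 0) →
      Nonempty (quotField 𝒜 (fun u => u.1 = 0) →ₐ[k] RatFunc k) →
      ∃ z : S, z ≠ 0 ∧ InDeg 𝒜 (AddMonoidHom.snd ℤ ℤ) 1 z) := by
  constructor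
  · intro r 𝒜 hA deg hS hG
    obtain ⟨v, hv, z, hz, hz0⟩ := @partB k S (Lex (Fin r → ℤ)) _ _ _ _ _ _ _
      (inferInstanceAs (DecidableEq (Fin r → ℤ))) _ _ 𝒜 hA deg hS hG
    refine ⟨z, hz0, ?_⟩
    have h := inDeg_of_mem 𝒜 deg hz
    intro u hu
    rw [h u hu]
    exact hv
  · intro 𝒜 hA hS h1 h2 hG
    obtain ⟨n, hn, x, hx, hx0⟩ := h2
    obtain ⟨v, hv, z, hz, hz0⟩ := @partA k S (ℤ ×ₗ ℤ) ℤ _ _ _ _ _ _ _
      (inferInstanceAs (DecidableEq (ℤ × ℤ))) _ _ _ _ _ 𝒜 hA (AddMonoidHom.snd ℤ ℤ) hS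
      (AddMonoidHom.fst ℤ ℤ) h1
      (fun u hu1 hu2 => Prod.ext hu1 hu2) ⟨(0, n), rfl, hn, x, hx, hx0⟩ hG
    refine ⟨z, hz0, ?_⟩
    have h := inDeg_of_mem 𝒜 (AddMonoidHom.snd ℤ ℤ) hz
    intro u hu
    rw [h u hu]
    exact hv

end Pool.Agent.Results.MP_954e53_ag.ComplexityOne
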