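import Pool.Agent.TH144.NV.Basic
import Pool.Agent.TH144.NV.Avg
import Pool.Agent.Run7.h277.WF.Multi

/-!
# Section rings of complete intersections in products of weighted projective spaces

`X` is the zero set, in a product of `r` weighted projective spaces `P_s` with arbitrary weights `a s i`, of forms `f j` of
multidegrees `d j` (any number, any codimension, any singularities), finite groups `G s` act diagonally on the variables of
`P_s`, and `L = O(l)`, `l = (l 1, …, l r)`. The grading of the section ring is not the standard grading of a weighted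
projective space, and `X` can have any Picard number.

If `S = ⨁ₘ H⁰(X, L ^ m) ^ G` is a section ring (`L` descends to an invertible sheaf on `X / G`) and
`∑ⱼ d j s < ∑ᵢ a s i` for all `s` (for a complete intersection: `-K_X` is ample; this holds if `S` is Gorenstein with negative
`a`-invariant, `K_X = L ^ a`) then `S₁ ≠ 0`.

Proof. Let `v` be a point of `X` and `X_s ⊆ P_s` the fibre over the other coordinates of `v`. The equations whose degree in the
variables of `P_s` is zero vanish on it. If `x` is a point of `X_s` fixed by `(g, μ) ∈ G_s × μ_∞` then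
`μ ^ (l s) = 1`. So for `μ ^ (l s) ≠ 1` the number of the coordinates of `P_s` of trivial character is at most the
number of the equations of positive degree in these variables, of trivial character. This is averaged as in the starting file
`AbelianQuotients` (the case `r = 1`), for each `s`.
-/

set_option autoImplicit false

namespace Pool.Agent.Results.MP_954e53_ag.MultigradedIntersections

open MvPolynomial Finset Pool.Agent.TH144.NV Pool.Agent.Run7.h277.WF

/-- The variables: `N s + 1` variables for the factor `s`. -/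
abbrev Var {r : ℕ} (N : Fin r → ℕ) : Type := (s : Fin r) × Fin (N s + 1)

/-- The equations `f j`, of multidegrees `d j`, in the product of the weighted projective spaces with the weights `a s i`,
and a diagonal action of the product of the groups `G s`; `G s` acts on the variables of the factor `s` by the characters
`α s i`. The equations are semi-invariant. -/
structure Datum (r c : ℕ) (N : Fin r → ℕ) (G : Fin r → Type) [∀ s, Group (G s)] where
  a : ∀ s, Fin (N s + 1) → ℕ
  a_pos : ∀ s i, 0 < a s i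
  d : Fin c → Fin r → ℕ
  f : Fin c → MvPolynomial (Var N) ℂ
  homogeneous : ∀ j s, IsWeightedHomogeneous
    (fun p : Var N => if p.1 = s then a p.1 p.2 else 0) (f j) (d j s)
  α : ∀ s, Fin (N s + 1) → G s →* ℂˣ
  χ : Fin c → (∀ s, G s) →* ℂˣ
  semi : ∀ j g, act (fun p : Var N => (α p.1 p.2 (g p.1) : ℂ)) (f j) = C (χ j g : ℂ) * f j

variable {r c : ℕ} {N : Fin r → ℕ} {G : Fin r → Type} [∀ s, Group (G s)]

namespace Datum

variable (D : Datum r c N G)

/-- `σ` is a form of multidegree `e`, a section of `O(e)`. -/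
def IsForm (e : Fin r → ℕ) (σ : MvPolynomial (Var N) ℂ) : Prop :=
  ∀ s, IsWeightedHomogeneous (fun p : Var N => if p.1 = s then D.a p.1 p.2 else 0) σ (e s)

/-- The points of `X`, in homogeneous coordinates. -/
def Pts : Set (Var N → ℂ) := {v | (∀ s, ∃ i, v ⟨s, i⟩ ≠ 0) ∧ ∀ j, eval v (D.f j) = 0}

/-- The action of `g` on points. -/
def move (g : ∀ s, G s) (v : Var N → ℂ) : Var N → ℂ := fun p => (D.α p.1 p.2 (g p.1) : ℂ) * v p

/-- `σ` is a form of multidegree `e` which is invariant on `X`. -/
def Inv (e : Fin r → ℕ) (σ : MvPolynomial (Var N) ℂ) : Prop :=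
  D.IsForm e σ ∧ ∀ g, ∀ v ∈ D.Pts, eval (D.move g v) σ = eval v σ

/-- At every point of `X` invariant forms of the multidegrees `m l` and `(m + 1) l`, for some `m`, do not vanish. This
holds if the `⨁ₘ H⁰(X, O(m l)) ^ G` is the section ring of an ample invertible sheaf on `X / G`. -/
def SectionRing (l : Fin r → ℕ) : Prop :=
  ∀ v ∈ D.Pts, ∃ (m : ℕ) (σ τ : MvPolynomial (Var N) ℂ),
    D.Inv (fun s => m * l s) σ ∧ D.Inv (fun s => (m + 1) * l s) τ ∧ eval v σ ≠ 0 ∧ eval v τ ≠ 0

/-- `X` is irreducible: its ideal is prime. -/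
def Irred : Prop := ∀ F H : MvPolynomial (Var N) ℂ, (∀ v ∈ D.Pts, eval v (F * H) = 0) →
  (∀ v ∈ D.Pts, eval v F = 0) ∨ ∀ v ∈ D.Pts, eval v H = 0

theorem pow_eq_one {l : Fin r → ℕ} (hS : D.SectionRing l) {v : Var N → ℂ} (hv : v ∈ D.Pts)
    (s : Fin r) (γ : G s) (μ : ℂˣ)
    (hfix : ∀ i, (D.α s i γ : ℂ) * v ⟨s, i⟩ = (μ : ℂ) ^ D.a s i * v ⟨s, i⟩) : μ ^ l s = 1 := by
  obtain ⟨m, σ, τ, hσ, hτ, hσ0, hτ0⟩ := hS v hv
  have hmove : D.move (Pi.mulSingle s γ) v =
      fun p => (μ : ℂ) ^ (if p.1 = s then D.a p.1 p.2 else 0) * v p := by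
    funext p
    obtain ⟨t, i⟩ := p
    unfold move
    by_cases h : t = s
    · subst h
      simpa using hfix i
    · simp [h]
  have key : ∀ {e : Fin r → ℕ} {σ : MvPolynomial (Var N) ℂ}, D.Inv e σ → eval v σ ≠ 0 →
      (μ : ℂ) ^ e s = 1 := by
    intro e σ hσ hσ0
    have h1 := hσ.2 (Pi.mulSingle s γ) v hv
    rw [hmove, eval_wscale (hσ.1 s)] at h1
    exact mul_right_cancel₀ hσ0 (by rw [h1, one_mul])
  have h1 := key hσ hσ0
  have h2 := key hτ hτ0
  simp only [add_mul, one_mul, pow_add] at h2
  rw [h1, one_mul] at h2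
  ext
  simpa using h2

theorem act_X {σ : Type} [Fintype σ] (t : σ → ℂ) (i : σ) :
    act t (X i : MvPolynomial σ ℂ) = C (t i) * X i := by
  unfold act
  rw [aeval_X]

theorem act_spec (s : Fin r) (v : Var N → ℂ) (γ : G s) (F : MvPolynomial (Var N) ℂ) :
    act (fun i => (D.α s i γ : ℂ)) (aeval (spec s v) F) = aeval (spec s v)
      (act (fun p : Var N => (D.α p.1 p.2 ((Pi.mulSingle s γ : ∀ t, G t) p.1) : ℂ)) F) := by
  set A : MvPolynomial (Fin (N s + 1)) ℂ →ₐ[ℂ] MvPolynomial (Fin (N s + 1)) ℂ :=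
    act (fun i => (D.α s i γ : ℂ)) with hA
  set B : MvPolynomial (Var N) ℂ →ₐ[ℂ] MvPolynomial (Var N) ℂ :=
    act (fun p : Var N => (D.α p.1 p.2 ((Pi.mulSingle s γ : ∀ t, G t) p.1) : ℂ)) with hB
  have key : A.comp (aeval (spec s v)) = (aeval (spec s v)).comp B := by
    refine MvPolynomial.algHom_ext fun p => ?_
    rw [AlgHom.comp_apply, AlgHom.comp_apply, aeval_X, hB, act_X]
    obtain ⟨t, i⟩ := p
    by_cases h : t = s
    · subst h
      have e1 : spec t v ⟨t, i⟩ = X i := by simp [spec]
      have e2 : (D.α t i ((Pi.mulSingle t γ : ∀ t, G t) t) : ℂ) = D.α t i γ := by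
        rw [Pi.mulSingle_eq_same]
      rw [e1, hA, act_X, map_mul (aeval _), aeval_X, e1, aeval_C, algebraMap_eq, e2]
    · have e1 : spec s v ⟨t, i⟩ = C (v ⟨t, i⟩) := by simp [spec, h]
      have e2 : (D.α t i ((Pi.mulSingle s γ : ∀ t, G t) t) : ℂ) = 1 := by
        rw [Pi.mulSingle_eq_of_ne h, map_one, Units.val_one]
      rw [e1, map_mul (aeval _), aeval_X, e1, aeval_C, algebraMap_eq, e2, C_1, one_mul, algHom_C,
        algebraMap_eq]
  exact DFunLike.congr_fun key F

theorem factor [∀ s, Finite (G s)] {l : Fin r → ℕ} (hS : D.SectionRing l) {v : Var N → ℂ}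
    (hv : v ∈ D.Pts) (s : Fin r) :
    ∃ T : Finset (Fin (N s + 1)), ∑ i, D.a s i ≤ ∑ j, D.d j s + ∑ i ∈ T, D.a s i ∧
      ∀ i ∈ T, D.a s i ∣ l s ∧ ∀ γ, D.α s i γ ^ (l s / D.a s i) = 1 := by
  classical
  have hwh := fun j => wh_spec (a := D.a) s v (D.homogeneous j s)
  have hself : ∀ j, eval (fun i => v ⟨s, i⟩) (aeval (spec s v) (D.f j)) = 0 := by
    intro j
    rw [eval_spec, repl_self]
    exact hv.2 j
  let χ' : {j : Fin c // 0 < D.d j s} → G s →* ℂˣ := fun j =>
    (D.χ j.1).comp (MonoidHom.mulSingle G s)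
  have hcount : ∀ (γ : G s) (μ : ℂˣ), μ ^ l s ≠ 1 →
      (univ.filter fun i => D.α s i γ = μ ^ D.a s i).card
        ≤ (univ.filter fun j : {j : Fin c // 0 < D.d j s} => χ' j γ = μ ^ D.d j.1 s).card := by
    intro γ μ hμ
    have h1 := count_le (D.a s) (fun j : {j : Fin c // 0 < D.d j s} => D.d j.1 s) (fun j => j.2)
      (fun j => aeval (spec s v) (D.f j.1)) (fun j => hwh j.1)
      (fun i => (D.α s i γ : ℂ)) (fun j => (χ' j γ : ℂ)) (by
        intro j
        rw [D.act_spec, D.semi, map_mul, algHom_C]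
        rfl) (μ : ℂ) (by
        intro q hfix hq
        by_contra hq0
        refine hμ (D.pow_eq_one hS (v := repl s v q) ⟨?_, ?_⟩ s γ μ ?_)
        · intro t
          by_cases h : t = s
          · subst h
            obtain ⟨i, hi⟩ := Function.ne_iff.1 hq0
            exact ⟨i, by rw [repl_same]; simpa using hi⟩
          · obtain ⟨i, hi⟩ := hv.1 t
            exact ⟨i, by rw [repl_other h]; exact hi⟩
        · intro j
          rw [← eval_spec]
          by_cases h : 0 < D.d j s
          · exact hq ⟨j, h⟩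
          · have h2 := hwh j
            rw [Nat.eq_zero_of_not_pos h] at h2
            rw [const_of_zero (D.a_pos s) h2 q (fun i => v ⟨s, i⟩)]
            exact hself j
        · intro i
          rw [repl_same]
          exact hfix i)
    have e1 : ∀ i, ((D.α s i γ : ℂ) = (μ : ℂ) ^ D.a s i) ↔ D.α s i γ = μ ^ D.a s i := by
      intro i
      rw [← Units.val_pow_eq_pow_val, Units.val_inj]
    have e2 : ∀ j : {j : Fin c // 0 < D.d j s},
        ((χ' j γ : ℂ) = (μ : ℂ) ^ D.d j.1 s) ↔ χ' j γ = μ ^ D.d j.1 s := by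
      intro j
      rw [← Units.val_pow_eq_pow_val, Units.val_inj]
    simp only [e1, e2] at h1
    convert h1
  have hmain := main_ineq (D.a s) (D.a_pos s) (fun j : {j : Fin c // 0 < D.d j s} => D.d j.1 s)
    (fun j => j.2) (D.α s) χ' (l s) (by
      intro γ μ hμ
      convert hcount γ μ hμ)
  refine ⟨univ.filter fun i => Good (l s) (D.a s i) (D.α s i), ?_, ?_⟩
  · have h1 := Finset.sum_filter_add_sum_filter_not (univ : Finset (Fin (N s + 1)))
      (fun i => Good (l s) (D.a s i) (D.α s i)) (D.a s)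
    have h2 : ∑ j ∈ univ.filter
        (fun j : {j : Fin c // 0 < D.d j s} => ¬ Good (l s) (D.d j.1 s) (χ' j)), D.d j.1 s
          ≤ ∑ j : {j : Fin c // 0 < D.d j s}, D.d j.1 s :=
      Finset.sum_le_sum_of_subset (Finset.filter_subset _ _)
    have h4 : ∑ j : {j : Fin c // 0 < D.d j s}, D.d j.1 s ≤ ∑ j, D.d j s := by
      rw [← Finset.sum_subtype (univ.filter fun j => 0 < D.d j s) (by simp)
        (fun j => D.d j s)]
      exact Finset.sum_le_sum_of_subset (Finset.filter_subset _ _)
    have h3 : ∑ i ∈ univ.filter (fun i => ¬ Good (l s) (D.a s i) (D.α s i)), D.a s i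
        ≤ ∑ j ∈ univ.filter
          (fun j : {j : Fin c // 0 < D.d j s} => ¬ Good (l s) (D.d j.1 s) (χ' j)), D.d j.1 s := by
      convert hmain
    omega
  · intro i hi
    exact ((Finset.mem_filter.1 hi).2).dvd (D.a_pos s i)

end Datum

/-- **Main result.** `X` is a nonempty zero set of forms in a product of weighted projective spaces with arbitrary weights, with
a finite group acting diagonally, and `O(l)` generates a section ring.

(1) For every factor `s` there is a set `T` of variables of this factor such that `∑ᵢ a s i ≤ ∑ⱼ d j s + ∑_{i ∈ T} a s i` and for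
all `i ∈ T` the weight `a s i` divides `l s` and the `(l s / a s i)`-th power of the variable is invariant.

(2) If `∑ⱼ d j s < ∑ᵢ a s i` for all `s`, `X` is irreducible and no variable vanishes on `X`, then there is an invariant form of
multidegree `l` which does not vanish on `X`: `S₁ ≠ 0`. -/
theorem result {r c : ℕ} {N : Fin r → ℕ} {G : Fin r → Type} [∀ s, Group (G s)]
    [∀ s, Finite (G s)] (D : Datum r c N G) (l : Fin r → ℕ) (hS : D.SectionRing l)
    (hne : D.Pts.Nonempty) :
    (∀ s, ∃ T : Finset (Fin (N s + 1)), ∑ i, D.a s i ≤ ∑ j, D.d j s + ∑ i ∈ T, D.a s i ∧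
      ∀ i ∈ T, D.a s i ∣ l s ∧ ∀ γ, D.α s i γ ^ (l s / D.a s i) = 1) ∧
    ((∀ s, ∑ j, D.d j s < ∑ i, D.a s i) → D.Irred → (∀ p, ∃ v ∈ D.Pts, v p ≠ 0) →
      ∃ σ : MvPolynomial (Var N) ℂ, D.IsForm l σ ∧
        (∀ g : ∀ s, G s, act (fun p : Var N => (D.α p.1 p.2 (g p.1) : ℂ)) σ = σ) ∧
        ∃ v ∈ D.Pts, eval v σ ≠ 0) := by
  classical
  obtain ⟨v, hv⟩ := hne
  have h1 := fun s => D.factor hS hv s
  refine ⟨h1, fun hF hI hfull => ?_⟩
  choose T hT1 hT2 using h1
  have h2 : ∀ s, (T s).Nonempty := by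
    intro s
    by_contra h
    rw [Finset.not_nonempty_iff_eq_empty] at h
    have h3 := hT1 s
    rw [h, Finset.sum_empty, add_zero] at h3
    exact absurd (hF s) (not_lt.2 h3)
  choose i hi using h2
  refine ⟨∏ s, X (⟨s, i s⟩ : Var N) ^ (l s / D.a s (i s)), ?_, ?_, ?_⟩
  · intro t
    have h3 := IsWeightedHomogeneous.prod (univ : Finset (Fin r))
      (fun s => X (⟨s, i s⟩ : Var N) ^ (l s / D.a s (i s)))
      (fun s => (l s / D.a s (i s)) • (if s = t then D.a s (i s) else 0))
      (w := fun p : Var N => if p.1 = t then D.a p.1 p.2 else 0) (R := ℂ)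
      (fun s _ => (isWeightedHomogeneous_X ℂ
        (fun p : Var N => if p.1 = t then D.a p.1 p.2 else 0) (⟨s, i s⟩ : Var N)).pow _)
    have h4 : ∑ s, (l s / D.a s (i s)) • (if s = t then D.a s (i s) else 0) = l t := by
      rw [Finset.sum_eq_single t]
      · simp only [if_true, smul_eq_mul]
        exact Nat.div_mul_cancel (hT2 t (i t) (hi t)).1
      · intro s _ hs
        simp [hs]
      · intro h
        exact absurd (Finset.mem_univ t) h
    rw [h4] at h3
    exact h3
  · intro g
    rw [map_prod]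
    refine Finset.prod_congr rfl fun s _ => ?_
    rw [map_pow]
    show (act (fun p : Var N => (D.α p.1 p.2 (g p.1) : ℂ)) (X ⟨s, i s⟩)) ^ _ = _
    unfold act
    rw [aeval_X, mul_pow, ← C_pow, ← Units.val_pow_eq_pow_val, (hT2 s (i s) (hi s)).2 (g s),
      Units.val_one, C_1, one_mul]
  · have h3 : ∀ S : Finset (Fin r), ∃ v ∈ D.Pts,
        eval v (∏ s ∈ S, X (⟨s, i s⟩ : Var N) ^ (l s / D.a s (i s))) ≠ 0 := by
      intro S
      induction S using Finset.induction_on with
      | empty => exact ⟨v, hv, by simp⟩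
      | insert s S hs ih =>
        by_contra hcon
        push Not at hcon
        rw [Finset.prod_insert hs] at hcon
        rcases hI _ _ hcon with h4 | h4
        · obtain ⟨u, hu, hup⟩ := hfull ⟨s, i s⟩
          have h5 := h4 u hu
          rw [map_pow, eval_X] at h5
          exact hup (eq_zero_of_pow_eq_zero h5)
        · obtain ⟨u, hu, hu2⟩ := ih
          exact hu2 (h4 u hu)
    exact h3 univ

end Pool.Agent.Results.MP_954e53_ag.MultigradedIntersections
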